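import Pool.Agent.H8.Nc6

namespace Pool.Agent.Results.MP_f3bbeb_co.NoBlank

open Pool.Agent.H8.Nc

theorem result (P : Finset (ℝ × ℝ)) (hn : ¬ Collinear ℝ (P : Set (ℝ × ℝ)))
    (hb : ∀ p ∈ P, p ∈ frontier (convexHull ℝ (P : Set (ℝ × ℝ))))
    (hs : ∀ u ∈ Set.extremePoints ℝ (convexHull ℝ (P : Set (ℝ × ℝ))),
      ∀ w ∈ Set.extremePoints ℝ (convexHull ℝ (P : Set (ℝ × ℝ))), u ≠ w →
        segment ℝ u w ⊆ frontier (convexHull ℝ (P : Set (ℝ × ℝ))) →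
          ∃ p ∈ P, p ∈ openSegment ℝ u w) :
    ¬ RankSymmetric (NC P) :=
  main hn hb hs

end Pool.Agent.Results.MP_f3bbeb_co.NoBlank
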